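import Pool.Agent.Lib_helper61.Rat.Window

/-!
The Lyness cases `(2,4)`, `(3,4)`, `(4,16)`, `(5,16)` of problem MP_88c4fb_an.
-/

set_option autoImplicit false

namespace Pool.Agent.RatRec

/-- The Lyness invariant. -/
noncomputable def lynessInv (A k : ℝ) (y : ℕ → ℝ) (n : ℕ) : ℝ :=
  (y n + k) * (y (n + 1) + k) * (A + k * y n + k * y (n + 1)) / (y n * y (n + 1))

theorem lynessInv_succ {A k : ℝ} {y : ℕ → ℝ} (hy : ∀ n, 0 < y n)
    (h : ∀ n, y (n + 2) * y n = A + k * y (n + 1)) (n : ℕ) :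
    lynessInv A k y (n + 1) = lynessInv A k y n := by
  have h0 := hy n
  have h1 := hy (n + 1)
  have h2 := hy (n + 2)
  have hr := h n
  have e1 : (y (n + 2) + k) * y n = A + k * y n + k * y (n + 1) := by
    linear_combination hr
  have e2 : A + k * y (n + 1) + k * y (n + 2) = y (n + 2) * (y n + k) := by
    linear_combination -hr
  unfold lynessInv
  have e3 : n + 1 + 1 = n + 2 := rfl
  rw [e3, e2, ← e1]
  field_simp

theorem lyness_bdd {y : ℕ → ℝ} (hy : ∀ n, 0 < y n) {A k : ℝ} (hA : 0 ≤ A) (hk : 0 < k)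
    (h : ∀ n, y (n + 2) * y n = A + k * y (n + 1)) : ∃ M, ∀ n, y n ≤ M := by
  have hinv : ∀ n, lynessInv A k y n = lynessInv A k y 0 := by
    intro n
    induction n with
    | zero => rfl
    | succ n ih => rw [lynessInv_succ hy h, ih]
  refine ⟨lynessInv A k y 0 / k, ?_⟩
  intro n
  rw [le_div_iff₀ hk, ← hinv n]
  unfold lynessInv
  have h0 := hy n
  have h1 := hy (n + 1)
  rw [le_div_iff₀ (mul_pos h0 h1)]
  have p1 : y n * y (n + 1) ≤ (y n + k) * (y (n + 1) + k) := by nlinarith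
  have p2 : y n * k ≤ A + k * y n + k * y (n + 1) := by nlinarith
  have := mul_le_mul p1 p2 (by positivity) (by positivity)
  nlinarith

theorem fs_two : fs 2 = {1} := by decide
theorem fs_three : fs 3 = {0, 1} := by decide
theorem fs_four : fs 4 = {2} := by decide
theorem fs_five : fs 5 = {0, 2} := by decide
theorem fs_sixteen : fs 16 = {4} := by decide

/-- `x_n = (α + β_1 x_{n-1}) / (B_2 x_{n-2})`, `α ≥ 0`. -/
theorem bdd_lyness_one {b B : Fin 5 → ℝ} (hb0 : 0 ≤ b 0) (hb1 : 0 < b 1) (hb2 : b 2 = 0)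
    (hb3 : b 3 = 0) (hb4 : b 4 = 0) (hB0 : B 0 = 0) (hB1 : B 1 = 0) (hB2 : 0 < B 2)
    (hB3 : B 3 = 0) (hB4 : B 4 = 0) {x : ℕ → ℝ} (hx : IsSolution b B x) :
    ∃ M : ℝ, ∀ n, x n ≤ M := by
  have hden : ∀ n, lin B x n = B 2 * x (n + 2) := by
    intro n
    simp [lin, hB0, hB1, hB3, hB4]
  have hnum : ∀ n, lin b x n = b 0 + b 1 * x (n + 3) := by
    intro n
    simp [lin, hb2, hb3, hb4]
  have hpos : ∀ n, 0 < x (n + 2) := by
    intro n
    have := hx.den_pos n
    rw [hden] at this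
    exact pos_of_mul_pos_right this hB2.le
  obtain ⟨M, hM⟩ := lyness_bdd (y := fun n => x (n + 2)) hpos (A := b 0 / B 2) (k := b 1 / B 2)
    (div_nonneg hb0 hB2.le) (div_pos hb1 hB2) (by
      intro n
      have hs := hx.step n
      rw [hden, hnum] at hs
      have hp := hpos n
      show x (n + 4) * x (n + 2) = b 0 / B 2 + b 1 / B 2 * x (n + 3)
      rw [hs]
      field_simp)
  refine ⟨max (max (x 0) (x 1)) M, ?_⟩
  intro n
  match n with
  | 0 => exact (le_max_left _ _).trans (le_max_left _ _)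
  | 1 => exact (le_max_right _ _).trans (le_max_left _ _)
  | n + 2 => exact (hM n).trans (le_max_right _ _)

/-- `x_n = (α + β_2 x_{n-2}) / (B_4 x_{n-4})`, `α ≥ 0`. -/
theorem bdd_lyness_two {b B : Fin 5 → ℝ} (hb0 : 0 ≤ b 0) (hb1 : b 1 = 0) (hb2 : 0 < b 2)
    (hb3 : b 3 = 0) (hb4 : b 4 = 0) (hB0 : B 0 = 0) (hB1 : B 1 = 0) (hB2 : B 2 = 0)
    (hB3 : B 3 = 0) (hB4 : 0 < B 4) {x : ℕ → ℝ} (hx : IsSolution b B x) :
    ∃ M : ℝ, ∀ n, x n ≤ M := by
  have hden : ∀ n, lin B x n = B 4 * x n := by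
    intro n
    simp [lin, hB0, hB1, hB2, hB3]
  have hnum : ∀ n, lin b x n = b 0 + b 2 * x (n + 2) := by
    intro n
    simp [lin, hb1, hb3, hb4]
  have hpos : ∀ n, 0 < x n := by
    intro n
    have := hx.den_pos n
    rw [hden] at this
    exact pos_of_mul_pos_right this hB4.le
  have key : ∀ r : ℕ, ∃ M : ℝ, ∀ n, x (2 * n + r) ≤ M := by
    intro r
    refine lyness_bdd (y := fun n => x (2 * n + r)) (fun n => hpos _) (A := b 0 / B 4)
      (k := b 2 / B 4) (div_nonneg hb0 hB4.le) (div_pos hb2 hB4) ?_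
    intro n
    have hs := hx.step (2 * n + r)
    rw [hden, hnum] at hs
    have hp := hpos (2 * n + r)
    have e1 : 2 * (n + 2) + r = 2 * n + r + 4 := by ring
    have e2 : 2 * (n + 1) + r = 2 * n + r + 2 := by ring
    show x (2 * (n + 2) + r) * x (2 * n + r) = b 0 / B 4 + b 2 / B 4 * x (2 * (n + 1) + r)
    rw [e1, e2, hs]
    field_simp
  obtain ⟨M0, h0⟩ := key 0
  obtain ⟨M1, h1⟩ := key 1
  refine ⟨max M0 M1, ?_⟩
  intro n
  rcases Nat.even_or_odd' n with ⟨m, rfl | rfl⟩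
  · exact (h0 m).trans (le_max_left _ _)
  · exact (h1 m).trans (le_max_right _ _)

theorem bdd_2_4 : BoundedOnly (fs 2) (fs 4) := by
  rw [fs_two, fs_four]
  intro b B hb hB x hx
  exact bdd_lyness_one (hb.nonneg 0) (hb.1 1 (by decide)) (hb.2 2 (by decide))
    (hb.2 3 (by decide)) (hb.2 4 (by decide)) (hB.2 0 (by decide)) (hB.2 1 (by decide))
    (hB.1 2 (by decide)) (hB.2 3 (by decide)) (hB.2 4 (by decide)) hx

theorem bdd_3_4 : BoundedOnly (fs 3) (fs 4) := by
  rw [fs_three, fs_four]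
  intro b B hb hB x hx
  exact bdd_lyness_one (hb.nonneg 0) (hb.1 1 (by decide)) (hb.2 2 (by decide))
    (hb.2 3 (by decide)) (hb.2 4 (by decide)) (hB.2 0 (by decide)) (hB.2 1 (by decide))
    (hB.1 2 (by decide)) (hB.2 3 (by decide)) (hB.2 4 (by decide)) hx

theorem bdd_4_16 : BoundedOnly (fs 4) (fs 16) := by
  rw [fs_four, fs_sixteen]
  intro b B hb hB x hx
  exact bdd_lyness_two (hb.nonneg 0) (hb.2 1 (by decide)) (hb.1 2 (by decide))
    (hb.2 3 (by decide)) (hb.2 4 (by decide)) (hB.2 0 (by decide)) (hB.2 1 (by decide))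
    (hB.2 2 (by decide)) (hB.2 3 (by decide)) (hB.1 4 (by decide)) hx

theorem bdd_5_16 : BoundedOnly (fs 5) (fs 16) := by
  rw [fs_five, fs_sixteen]
  intro b B hb hB x hx
  exact bdd_lyness_two (hb.nonneg 0) (hb.2 1 (by decide)) (hb.1 2 (by decide))
    (hb.2 3 (by decide)) (hb.2 4 (by decide)) (hB.2 0 (by decide)) (hB.2 1 (by decide))
    (hB.2 2 (by decide)) (hB.2 3 (by decide)) (hB.1 4 (by decide)) hx

end Pool.Agent.RatRec
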